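import Mathlib

/-! Riemann-Hurwitz for the pencil of `X p1²` and `q1²` (pure polynomials). -/

namespace Pool.Agent.H40.MS

open Polynomial

/-- if `F = E D²` then `D` divides `F' B - F B'` -/
theorem dvd_wr (F E D B : ℂ[X]) (h : F = E * D ^ 2) :
    D ∣ derivative F * B - F * derivative B := by
  subst h
  refine ⟨(derivative E * D + 2 * E * derivative D) * B - E * D * derivative B, ?_⟩
  simp only [derivative_mul, derivative_pow, Nat.cast_ofNat, map_ofNat]
  ring

theorem cop {A B : ℂ[X]} (hco : IsCoprime A B) {a b c e : ℂ} (hdet : a * e - b * c ≠ 0) :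
    IsCoprime (C a * A + C b * B) (C c * A + C e * B) := by
  obtain ⟨u, v, huv⟩ := hco
  refine ⟨C (a * e - b * c)⁻¹ * (C e * u - C c * v), C (a * e - b * c)⁻¹ * (C a * v - C b * u), ?_⟩
  have h1 : C (a * e - b * c)⁻¹ * C (a * e - b * c) = (1 : ℂ[X]) := by
    rw [← C_mul, inv_mul_cancel₀ hdet, C_1]
  have h2 : C (a * e - b * c) = C a * C e - C b * C c := by
    rw [C_sub, C_mul, C_mul]
  calc C (a * e - b * c)⁻¹ * (C e * u - C c * v) * (C a * A + C b * B) +
        C (a * e - b * c)⁻¹ * (C a * v - C b * u) * (C c * A + C e * B)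
      = C (a * e - b * c)⁻¹ * (C a * C e - C b * C c) * (u * A + v * B) := by ring
    _ = 1 := by rw [huv, ← h2, h1, one_mul]

/-- degree of a square root in a pencil -/
theorem deg_sq {A B D : ℂ[X]} {h : ℕ} {a b c e κ : ℂ} (hA : A.natDegree = 2 * h + 1)
    (hB : B.natDegree < 2 * h + 1) (ha : a ≠ 0) (hc : c ≠ 0) (hk : κ ≠ 0)
    (h1 : C a * A + C b * B = C κ * (C c * X + C e) * D ^ 2) : D ≠ 0 ∧ D.natDegree = h := by
  have h2 : (C a * A + C b * B).natDegree = 2 * h + 1 := by
    rw [natDegree_add_eq_left_of_natDegree_lt, natDegree_C_mul ha, hA]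
    rw [natDegree_C_mul ha, hA]
    exact (natDegree_C_mul_le _ _).trans_lt hB
  have hD : D ≠ 0 := by
    rintro rfl
    rw [h1] at h2
    simp at h2
  refine ⟨hD, ?_⟩
  have h3 : (C c * X + C e : ℂ[X]).natDegree = 1 := natDegree_linear hc
  have h4 : (C c * X + C e : ℂ[X]) ≠ 0 := by
    intro h0
    rw [h0] at h3
    simp at h3
  rw [h1, natDegree_mul (mul_ne_zero (C_ne_zero.2 hk) h4) (pow_ne_zero _ hD),
    natDegree_C_mul hk, h3, natDegree_pow] at h2
  omega

theorem rh_contra (p1 q1 P2 Q2 : ℂ[X]) (h : ℕ) (hp : p1.natDegree = h)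
    (hq : q1.natDegree + 1 ≤ h) (hco : IsCoprime (X * p1 ^ 2) (q1 ^ 2)) (a b c e κ κ' : ℂ)
    (hdet : a * e - b * c ≠ 0) (ha : a ≠ 0) (hb : b ≠ 0) (hc : c ≠ 0) (he : e ≠ 0)
    (hk : κ ≠ 0) (hk' : κ' ≠ 0)
    (h1 : C a * (X * p1 ^ 2) + C b * q1 ^ 2 = C κ * (C c * X + C e) * Q2 ^ 2)
    (h2 : C c * (X * p1 ^ 2) + C e * q1 ^ 2 = C κ' * (C a * X + C b) * P2 ^ 2) : False := by
  set A : ℂ[X] := X * p1 ^ 2 with hA
  set B : ℂ[X] := q1 ^ 2 with hB
  set W : ℂ[X] := derivative A * B - A * derivative B with hW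
  have hp0 : p1 ≠ 0 := by
    rintro rfl
    simp at hp
    omega
  have hA0 : A ≠ 0 := mul_ne_zero X_ne_zero (pow_ne_zero _ hp0)
  have hAd : A.natDegree = 2 * h + 1 := by
    rw [hA, natDegree_mul X_ne_zero (pow_ne_zero _ hp0), natDegree_X, natDegree_pow, hp]
    ring
  have hq0 : q1 ≠ 0 := by
    rintro rfl
    rw [hB, zero_pow two_ne_zero, isCoprime_zero_right] at hco
    have := natDegree_eq_zero_of_isUnit hco
    omega
  have hB0 : B ≠ 0 := pow_ne_zero _ hq0
  have hBd : B.natDegree = 2 * q1.natDegree := by rw [hB, natDegree_pow]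
  -- `W ≠ 0`
  have h6 := natDegree_derivative_lt (p := A) (by omega)
  have hAder : derivative A ≠ 0 := by
    intro h0
    have := derivative_eq_zero.1 h0
    omega
  have hW0 : W ≠ 0 := by
    intro h0
    have h3 : derivative A * B = A * derivative B := sub_eq_zero.1 h0
    have h4 : A ∣ derivative A := by
      refine hco.dvd_of_dvd_mul_right ?_
      rw [h3]; exact dvd_mul_right _ _
    have h5 := natDegree_le_of_dvd h4 hAder
    omega
  -- degree of `W`
  have hWd : W.natDegree ≤ 2 * h + 2 * q1.natDegree := by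
    refine (natDegree_sub_le _ _).trans (max_le ?_ ?_)
    · refine natDegree_mul_le.trans ?_
      omega
    · rcases Nat.eq_zero_or_pos B.natDegree with h7 | h7
      · have h8 : derivative B = 0 := derivative_eq_zero.2 h7
        rw [h8, mul_zero, natDegree_zero]
        exact Nat.zero_le _
      · have h8 := natDegree_derivative_lt (p := B) (by omega)
        refine natDegree_mul_le.trans ?_
        omega
  -- the four divisors
  have d1 : p1 ∣ W := dvd_wr A X p1 B rfl
  have d2 : q1 ∣ W := by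
    have := dvd_wr B 1 q1 A (by rw [one_mul])
    have h3 : W = -(derivative B * A - B * derivative A) := by rw [hW]; ring
    rw [h3]
    exact (dvd_neg).2 this
  have d3 : Q2 ∣ W := by
    have := dvd_wr (C a * A + C b * B) _ Q2 B h1
    have h3 : derivative (C a * A + C b * B) * B - (C a * A + C b * B) * derivative B =
        C a * W := by
      rw [hW, derivative_add, derivative_C_mul, derivative_C_mul]; ring
    rw [h3] at this
    exact (isUnit_C.2 (isUnit_iff_ne_zero.2 ha)).dvd_mul_left.1 this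
  have d4 : P2 ∣ W := by
    have := dvd_wr (C c * A + C e * B) _ P2 B h2
    have h3 : derivative (C c * A + C e * B) * B - (C c * A + C e * B) * derivative B =
        C c * W := by
      rw [hW, derivative_add, derivative_C_mul, derivative_C_mul]; ring
    rw [h3] at this
    exact (isUnit_C.2 (isUnit_iff_ne_zero.2 hc)).dvd_mul_left.1 this
  -- pairwise coprime
  have e1 : p1 ∣ A := ⟨X * p1, by rw [hA]; ring⟩
  have e2 : q1 ∣ B := ⟨q1, by rw [hB]; ring⟩
  have e3 : Q2 ∣ C a * A + C b * B := ⟨C κ * (C c * X + C e) * Q2, by rw [h1]; ring⟩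
  have e4 : P2 ∣ C c * A + C e * B := ⟨C κ' * (C a * X + C b) * P2, by rw [h2]; ring⟩
  have c12 : IsCoprime p1 q1 :=
    (hco.of_isCoprime_of_dvd_left e1).of_isCoprime_of_dvd_right e2
  have c13 : IsCoprime p1 Q2 := by
    have := cop hco (a := 1) (b := 0) (c := a) (e := b) (by simpa using hb)
    rw [C_1, C_0, one_mul, zero_mul, add_zero] at this
    exact (this.of_isCoprime_of_dvd_left e1).of_isCoprime_of_dvd_right e3
  have c14 : IsCoprime p1 P2 := by
    have := cop hco (a := 1) (b := 0) (c := c) (e := e) (by simpa using he)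
    rw [C_1, C_0, one_mul, zero_mul, add_zero] at this
    exact (this.of_isCoprime_of_dvd_left e1).of_isCoprime_of_dvd_right e4
  have c23 : IsCoprime q1 Q2 := by
    have := cop hco (a := 0) (b := 1) (c := a) (e := b) (by simpa using ha)
    rw [C_1, C_0, one_mul, zero_mul, zero_add] at this
    exact (this.of_isCoprime_of_dvd_left e2).of_isCoprime_of_dvd_right e3
  have c24 : IsCoprime q1 P2 := by
    have := cop hco (a := 0) (b := 1) (c := c) (e := e) (by simpa using hc)
    rw [C_1, C_0, one_mul, zero_mul, zero_add] at this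
    exact (this.of_isCoprime_of_dvd_left e2).of_isCoprime_of_dvd_right e4
  have c34 : IsCoprime Q2 P2 :=
    ((cop hco hdet).of_isCoprime_of_dvd_left e3).of_isCoprime_of_dvd_right e4
  obtain ⟨hQ0, hQd⟩ := deg_sq hAd (by omega) ha hc hk h1
  obtain ⟨hP0, hPd⟩ := deg_sq hAd (by omega) hc ha hk' h2
  have hall : p1 * q1 * Q2 * P2 ∣ W :=
    ((c14.mul_left c24).mul_left c34).mul_dvd ((c13.mul_left c23).mul_dvd (c12.mul_dvd d1 d2) d3)
      d4
  have hdeg := natDegree_le_of_dvd hall hW0
  rw [natDegree_mul (mul_ne_zero (mul_ne_zero hp0 hq0) hQ0) hP0,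
    natDegree_mul (mul_ne_zero hp0 hq0) hQ0, natDegree_mul hp0 hq0, hp, hQd, hPd] at hdeg
  omega

end Pool.Agent.H40.MS
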