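import Pool.Graph.R_seed8.H884R3.MsConj
import Pool.Agent.H40.MS.Rh

/-! Conjugating Möbius maps of `X p1² / q1²` and `q1² / (X p1²)`. -/

namespace Pool.Agent.H40.MS

open Polynomial
open Pool.Agent.Helper881.Gp
open Pool.Agent.H884R3.Ms

/-- homogenization -/
noncomputable def hom (N : ℕ) (p u v : ℂ[X]) : ℂ[X] :=
  ∑ i ∈ Finset.range (N + 1), C (p.coeff i) * u ^ i * v ^ (N - i)

theorem ι_C (z : ℂ) : algebraMap ℂ (RatFunc ℂ) z = ι (C z) := by
  unfold ι
  rw [RatFunc.algebraMap_C]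
  rfl

theorem aeval_hom (N : ℕ) (p u v : ℂ[X]) (hp : p.natDegree ≤ N) (hv : v ≠ 0) :
    aeval (ι u / ι v) p = ι (hom N p u v) / ι v ^ N := by
  have hv' := ι_ne hv
  rw [aeval_eq_sum_range' (Nat.lt_succ_of_le hp), hom]
  have h1 : ι (∑ i ∈ Finset.range (N + 1), C (p.coeff i) * u ^ i * v ^ (N - i)) =
      ∑ i ∈ Finset.range (N + 1), ι (C (p.coeff i)) * ι u ^ i * ι v ^ (N - i) := by
    unfold ι
    rw [map_sum]
    refine Finset.sum_congr rfl fun i _ => ?_
    rw [map_mul, map_mul, map_pow, map_pow]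
  rw [h1, Finset.sum_div]
  refine Finset.sum_congr rfl fun i hi => ?_
  have hi' : i ≤ N := Nat.lt_succ_iff.1 (Finset.mem_range.1 hi)
  rw [Algebra.smul_def, ι_C, div_pow, eq_div_iff (pow_ne_zero _ hv')]
  have h2 : ι v ^ N = ι v ^ i * ι v ^ (N - i) := by rw [← pow_add]; congr 1; omega
  rw [h2]
  field_simp

theorem eval_hom (N : ℕ) (p u v : ℂ[X]) (x : ℂ) (hp : p.natDegree ≤ N) (hv : v.eval x ≠ 0) :
    (hom N p u v).eval x = v.eval x ^ N * p.eval (u.eval x / v.eval x) := by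
  rw [hom, eval_finsetSum, eval_eq_sum_range' (Nat.lt_succ_of_le hp), Finset.mul_sum]
  refine Finset.sum_congr rfl fun i hi => ?_
  have hi' : i ≤ N := Nat.lt_succ_iff.1 (Finset.mem_range.1 hi)
  have h2 : v.eval x ^ N = v.eval x ^ i * v.eval x ^ (N - i) := by rw [← pow_add]; congr 1; omega
  rw [eval_mul, eval_mul, eval_C, eval_pow, eval_pow, h2, div_pow]
  field_simp

theorem eval_hom_zero (N : ℕ) (p u v : ℂ[X]) (x : ℂ) (hv : v.eval x = 0) :
    (hom N p u v).eval x = p.coeff N * u.eval x ^ N := by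
  rw [hom, eval_finsetSum, Finset.sum_range_succ, Finset.sum_eq_zero]
  · simp [eval_mul, eval_pow]
  · intro i hi
    have hi' : i < N := Finset.mem_range.1 hi
    rw [eval_mul, eval_pow, hv, zero_pow (by omega), mul_zero]

/-- the two homogeneous forms have no common root -/
theorem cop_hom {p1 q1 : ℂ[X]} {h : ℕ} (hp : p1.natDegree = h) (hq : q1.natDegree ≤ h)
    (hp0 : p1 ≠ 0) (hco : IsCoprime (X * p1 ^ 2) (q1 ^ 2)) {a b c e : ℂ}
    (hdet : a * e - b * c ≠ 0) :
    IsCoprime ((C a * X + C b) * hom h p1 (C a * X + C b) (C c * X + C e) ^ 2)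
      ((C c * X + C e) * hom h q1 (C a * X + C b) (C c * X + C e) ^ 2) := by
  have hco' : ∀ x : ℂ, aeval x (X * p1 ^ 2 : ℂ[X]) ≠ 0 ∨ aeval x (q1 ^ 2 : ℂ[X]) ≠ 0 :=
    fun x => aeval_ne_zero_of_isCoprime hco x
  refine (Polynomial.isCoprime_iff_aeval_ne_zero_of_isAlgClosed (k := ℂ) ℂ _ _).2 ?_
  intro x
  by_contra hcon
  push Not at hcon
  obtain ⟨h1, h2⟩ := hcon
  rw [coe_aeval_eq_eval] at h1 h2
  obtain ⟨u, hu⟩ : ∃ u : ℂ[X], u = C a * X + C b := ⟨_, rfl⟩
  obtain ⟨v, hv⟩ : ∃ v : ℂ[X], v = C c * X + C e := ⟨_, rfl⟩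
  rw [← hu, ← hv] at h1 h2
  rw [eval_mul, eval_pow] at h1 h2
  have eu : u.eval x = a * x + b := by rw [hu]; simp
  have ev : v.eval x = c * x + e := by rw [hv]; simp
  by_cases hv0 : v.eval x = 0
  · have hu0 : u.eval x ≠ 0 := by
      intro hu0
      rw [eu] at hu0
      rw [ev] at hv0
      apply hdet
      linear_combination a * hv0 - c * hu0
    rw [eval_hom_zero _ _ _ _ _ hv0] at h1
    have hl : p1.coeff h ≠ 0 := by
      rw [← hp]; exact leadingCoeff_ne_zero.2 hp0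
    exact (mul_ne_zero hu0 (pow_ne_zero _ (mul_ne_zero hl (pow_ne_zero _ hu0)))) h1
  · rw [eval_hom _ _ _ _ _ hp.le hv0] at h1
    rw [eval_hom _ _ _ _ _ hq hv0] at h2
    have h3 := hco' (u.eval x / v.eval x)
    rw [coe_aeval_eq_eval, eval_mul, eval_X, eval_pow, eval_pow] at h3
    have hvh : v.eval x ^ h ≠ 0 := pow_ne_zero _ hv0
    have h4 : q1.eval (u.eval x / v.eval x) = 0 := by
      rcases mul_eq_zero.1 h2 with h | h
      · exact absurd h hv0
      · rcases mul_eq_zero.1 (pow_eq_zero_iff two_ne_zero |>.1 h) with h | h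
        · exact absurd h hvh
        · exact h
    rcases h3 with h3 | h3
    · apply h3
      rcases mul_eq_zero.1 h1 with h | h
      · rw [h, zero_div, zero_mul]
      · rcases mul_eq_zero.1 (pow_eq_zero_iff two_ne_zero |>.1 h) with h | h
        · exact absurd h hvh
        · rw [h]; ring
    · apply h3
      rw [h4]; ring

/-- from the functional equation to the factorizations -/
theorem assoc_eq {R S U V : ℂ[X]} (h1 : IsCoprime R S) (h2 : IsCoprime U V) (hR : R ≠ 0)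
    (h : R * U = S * V) : (∃ κ : ℂ, κ ≠ 0 ∧ R = C κ * V) ∧ ∃ κ : ℂ, κ ≠ 0 ∧ S = C κ * U := by
  have d1 : R ∣ V := h1.dvd_of_dvd_mul_left ⟨U, h.symm⟩
  have d2 : V ∣ R := h2.symm.dvd_of_dvd_mul_right ⟨S, by rw [h]; ring⟩
  obtain ⟨w, hw⟩ := associated_of_dvd_dvd d2 d1
  obtain ⟨κ, hκ, hκw⟩ := Polynomial.isUnit_iff.1 w.isUnit
  have hR' : R = C κ * V := by rw [← hw, ← hκw]; ring
  have hV : V ≠ 0 := by
    rintro rfl
    apply hR
    rw [hR', mul_zero]
  refine ⟨⟨κ, hκ.ne_zero, hR'⟩, ⟨κ, hκ.ne_zero, ?_⟩⟩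
  rw [hR'] at h
  apply mul_right_cancel₀ hV
  rw [← h]; ring

theorem conj_data (p1 q1 : ℂ[X]) (h : ℕ) (hp : p1.natDegree = h) (hq : q1.natDegree + 1 ≤ h)
    (hco : IsCoprime (X * p1 ^ 2) (q1 ^ 2))
    (hc : Conjugate (ι (X * p1 ^ 2) / ι (q1 ^ 2)) (ι (q1 ^ 2) / ι (X * p1 ^ 2))) :
    ∃ (a b c e κ κ' : ℂ) (P2 Q2 : ℂ[X]), a * e - b * c ≠ 0 ∧ a ≠ 0 ∧ b ≠ 0 ∧ c ≠ 0 ∧ e ≠ 0 ∧
      κ ≠ 0 ∧ κ' ≠ 0 ∧
      C a * (X * p1 ^ 2) + C b * q1 ^ 2 = C κ * (C c * X + C e) * Q2 ^ 2 ∧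
      C c * (X * p1 ^ 2) + C e * q1 ^ 2 = C κ' * (C a * X + C b) * P2 ^ 2 := by
  have hp0 : p1 ≠ 0 := by
    rintro rfl
    simp at hp
    omega
  have hq0 : q1 ≠ 0 := by
    rintro rfl
    rw [zero_pow two_ne_zero, isCoprime_zero_right] at hco
    have h1 := natDegree_eq_zero_of_isUnit hco
    rw [natDegree_mul X_ne_zero (pow_ne_zero _ hp0), natDegree_X] at h1
    omega
  obtain ⟨m, hm, hfun⟩ := hc
  obtain ⟨a, b, hab⟩ := exists_eq_X_add_C_of_natDegree_le_one
    (show m.num.natDegree ≤ 1 by unfold deg at hm; omega)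
  obtain ⟨c, d, hcd⟩ := exists_eq_X_add_C_of_natDegree_le_one
    (show m.denom.natDegree ≤ 1 by unfold deg at hm; omega)
  have hcop := RatFunc.isCoprime_num_denom m
  have hden := RatFunc.denom_ne_zero m
  have hdeg : max m.num.natDegree m.denom.natDegree = 1 := hm
  have hΔ : a * d - b * c ≠ 0 := by
    intro hΔ
    rw [hab, hcd] at hcop hdeg
    rw [hcd] at hden
    rcases eq_or_ne c 0 with hc | hc
    · rw [hc] at hΔ hdeg hden
      have hd : d ≠ 0 := by
        rintro rfl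
        apply hden
        simp
      have ha : a = 0 := by
        have : a * d = 0 := by linear_combination hΔ
        rcases mul_eq_zero.mp this with h | h
        · exact h
        · exact absurd h hd
      rw [ha] at hdeg
      simp at hdeg
    · obtain ⟨s, t, hst⟩ := hcop
      have e := congrArg (eval (-d / c)) hst
      have e1 : (C c * X + C d : ℂ[X]).eval (-d / c) = 0 := by
        simp only [eval_add, eval_mul, eval_C, eval_X]
        field_simp
        ring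
      have e2 : (C a * X + C b : ℂ[X]).eval (-d / c) = 0 := by
        simp only [eval_add, eval_mul, eval_C, eval_X]
        field_simp
        linear_combination -hΔ
      rw [eval_add, eval_mul, eval_mul, e1, e2, eval_one] at e
      norm_num at e
  obtain ⟨u, hu⟩ : ∃ u : ℂ[X], u = C a * X + C b := ⟨_, rfl⟩
  obtain ⟨v, hv⟩ : ∃ v : ℂ[X], v = C c * X + C d := ⟨_, rfl⟩
  obtain ⟨A, hA⟩ : ∃ A : ℂ[X], A = X * p1 ^ 2 := ⟨_, rfl⟩
  obtain ⟨B, hB⟩ : ∃ B : ℂ[X], B = q1 ^ 2 := ⟨_, rfl⟩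
  rw [← hA, ← hB] at hco hfun
  have hA0 : A ≠ 0 := by rw [hA]; exact mul_ne_zero X_ne_zero (pow_ne_zero _ hp0)
  have hB0 : B ≠ 0 := by rw [hB]; exact pow_ne_zero _ hq0
  have hAd : A.natDegree = 2 * h + 1 := by
    rw [hA, natDegree_mul X_ne_zero (pow_ne_zero _ hp0), natDegree_X, natDegree_pow, hp]; ring
  have hBd : B.natDegree < 2 * h + 1 := by rw [hB, natDegree_pow]; omega
  have hv0 : v ≠ 0 := by rw [hv, ← hcd]; exact hden
  have hm' : m = ι u / ι v := by
    rw [hu, hv, ← hab, ← hcd]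
    exact (RatFunc.num_div_denom m).symm
  -- linear combinations are not zero
  have hlin : ∀ x y : ℂ, (x ≠ 0 ∨ y ≠ 0) → C x * A + C y * B ≠ 0 := by
    intro x y hxy h0
    by_cases hx : x = 0
    · have hy : y ≠ 0 := by
        rcases hxy with h | h
        · exact absurd hx h
        · exact h
      rw [hx, C_0, zero_mul, zero_add] at h0
      exact (mul_ne_zero (C_ne_zero.2 hy) hB0) h0
    · have h2 : (C x * A + C y * B).natDegree = 2 * h + 1 := by
        rw [natDegree_add_eq_left_of_natDegree_lt, natDegree_C_mul hx, hAd]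
        rw [natDegree_C_mul hx, hAd]
        exact (natDegree_C_mul_le _ _).trans_lt hBd
      rw [h0] at h2
      simp at h2
  have hR0 : C a * A + C b * B ≠ 0 := by
    apply hlin
    by_contra hcon
    push Not at hcon
    apply hΔ
    rw [hcon.1, hcon.2]; ring
  have hS0 : C c * A + C d * B ≠ 0 := by
    apply hlin
    by_contra hcon
    push Not at hcon
    apply hΔ
    rw [hcon.1, hcon.2]; ring
  have hcomp1 : comp m (ι A / ι B) = ι (C a * A + C b * B) / ι (C c * A + C d * B) := by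
    unfold Pool.Agent.Helper881.Gp.comp
    rw [hab, hcd]
    have hB' := ι_ne hB0
    simp only [map_add, map_mul, aeval_C, aeval_X]
    rw [ι_C, ι_C, ι_C, ι_C]
    have hι : ∀ p q r s : ℂ[X], ι (p * q + r * s) = ι p * ι q + ι r * ι s := by
      intro p q r s
      unfold ι
      rw [map_add, map_mul, map_mul]
    rw [hι, hι]
    have e1 : ι (C a) * (ι A / ι B) + ι (C b) =
        (ι (C a) * ι A + ι (C b) * ι B) / ι B := by field_simp
    have e2 : ι (C c) * (ι A / ι B) + ι (C d) =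
        (ι (C c) * ι A + ι (C d) * ι B) / ι B := by field_simp
    rw [e1, e2, div_div_div_cancel_right₀ hB']
  obtain ⟨P2, hP2⟩ : ∃ P2 : ℂ[X], P2 = hom h p1 u v := ⟨_, rfl⟩
  obtain ⟨Q2, hQ2⟩ : ∃ Q2 : ℂ[X], Q2 = hom h q1 u v := ⟨_, rfl⟩
  have hv' := ι_ne hv0
  have hcomp2 : comp (ι B / ι A) m = ι (v * Q2 ^ 2) / ι (u * P2 ^ 2) := by
    obtain ⟨c0, hc0, hn, hd⟩ := bridge B A hco.symm hA0
    unfold Pool.Agent.Helper881.Gp.comp
    rw [hn, hd, map_mul, map_mul, aeval_C, mul_div_mul_left _ _ (by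
      rw [ι_C]; exact ι_ne (C_ne_zero.2 hc0)), hA, hB, map_mul, map_pow, map_pow, aeval_X, hm',
      aeval_hom h p1 u v hp.le hv0, aeval_hom h q1 u v (by omega) hv0, ← hP2, ← hQ2]
    have e1 : ι (v * Q2 ^ 2) = ι v * ι Q2 ^ 2 := by unfold ι; rw [map_mul, map_pow]
    have e2 : ι (u * P2 ^ 2) = ι u * ι P2 ^ 2 := by unfold ι; rw [map_mul, map_pow]
    rw [e1, e2]
    field_simp
  rw [hcomp1, hcomp2] at hfun
  have hcopH : IsCoprime (u * P2 ^ 2) (v * Q2 ^ 2) := by
    have := cop_hom hp (by omega) hp0 (by rw [← hA, ← hB]; exact hco) hΔ (q1 := q1)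
    rw [hP2, hQ2, hu, hv]
    exact this
  have hU0 : u * P2 ^ 2 ≠ 0 := by
    intro h0
    rw [h0] at hfun
    have e0 : ι 0 = 0 := by unfold ι; rw [map_zero]
    rw [e0, div_zero, div_eq_zero_iff] at hfun
    rcases hfun with h | h
    · exact (ι_ne hR0) h
    · exact (ι_ne hS0) h
  have hpoly : (C a * A + C b * B) * (u * P2 ^ 2) = (C c * A + C d * B) * (v * Q2 ^ 2) := by
    rw [div_eq_div_iff (ι_ne hS0) (ι_ne hU0)] at hfun
    have hinj : Function.Injective ι := RatFunc.algebraMap_injective ℂ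
    have hmul : ∀ p q : ℂ[X], ι (p * q) = ι p * ι q := fun p q => map_mul _ p q
    apply hinj
    rw [hmul (C a * A + C b * B), hfun, hmul (C c * A + C d * B)]
    ring
  obtain ⟨⟨κ, hκ, hκ1⟩, ⟨κ', hκ', hκ2⟩⟩ := assoc_eq (cop hco hΔ) hcopH hR0 hpoly
  have r1 : C a * A + C b * B = C κ * v * Q2 ^ 2 := by rw [hκ1]; ring
  have r2 : C c * A + C d * B = C κ' * u * P2 ^ 2 := by rw [hκ2]; ring
  have hB00 : B.eval 0 ≠ 0 := by
    intro h0
    obtain ⟨s, t, hst⟩ := hco
    have e := congrArg (eval 0) hst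
    rw [eval_add, eval_mul, eval_mul, h0, hA, eval_mul, eval_X, eval_one] at e
    norm_num at e
  have hA00 : A.eval 0 = 0 := by rw [hA, eval_mul, eval_X, zero_mul]
  have z1 : b * B.eval 0 = κ * d * Q2.eval 0 ^ 2 := by
    have e := congrArg (eval 0) r1
    rw [hv] at e
    simp only [eval_add, eval_mul, eval_C, eval_pow, eval_X, hA00] at e
    linear_combination e
  have z2 : d * B.eval 0 = κ' * b * P2.eval 0 ^ 2 := by
    have e := congrArg (eval 0) r2
    rw [hu] at e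
    simp only [eval_add, eval_mul, eval_C, eval_pow, eval_X, hA00] at e
    linear_combination e
  have hb : b ≠ 0 := by
    rintro rfl
    have : d = 0 := by
      rcases mul_eq_zero.1 (show d * B.eval 0 = 0 by rw [z2]; ring) with h | h
      · exact h
      · exact absurd h hB00
    apply hΔ
    rw [this]; ring
  have hd : d ≠ 0 := by
    rintro rfl
    rcases mul_eq_zero.1 (show b * B.eval 0 = 0 by rw [z1]; ring) with h | h
    · exact hb h
    · exact hB00 h
  have hodd : ∀ x y k : ℂ, x ≠ 0 → k ≠ 0 → ∀ D : ℂ[X], C x * A + C y * B = C k * D ^ 2 → False := by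
    intro x y k hx hk D hD
    have h2 : (C x * A + C y * B).natDegree = 2 * h + 1 := by
      rw [natDegree_add_eq_left_of_natDegree_lt, natDegree_C_mul hx, hAd]
      rw [natDegree_C_mul hx, hAd]
      exact (natDegree_C_mul_le _ _).trans_lt hBd
    rw [hD, natDegree_C_mul hk, natDegree_pow] at h2
    omega
  have ha : a ≠ 0 := by
    rintro rfl
    have hc' : c ≠ 0 := by
      rintro rfl
      apply hΔ; ring
    refine hodd c d (κ' * b) hc' (mul_ne_zero hκ' hb) P2 ?_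
    rw [r2, hu, C_mul, C_0]; ring
  have hc' : c ≠ 0 := by
    rintro rfl
    refine hodd a b (κ * d) ha (mul_ne_zero hκ hd) Q2 ?_
    rw [r1, hv, C_mul, C_0]; ring
  refine ⟨a, b, c, d, κ, κ', P2, Q2, hΔ, ha, hb, hc', hd, hκ, hκ', ?_, ?_⟩
  · rw [← hA, ← hB, ← hv]; exact r1
  · rw [← hA, ← hB, ← hu]; exact r2

end Pool.Agent.H40.MS
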