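import Pool.Agent.H32.MS.Orbit

set_option autoImplicit false

/-!
If all local degrees over one point are even, the degree is even.
-/

open Polynomial
open Pool.Agent.Helper881.Gp
open Pool.Agent.H884R3.Ms
open Pool.Agent.H32.MS

namespace Pool.Agent.H40.MS

lemma even_natDegree {N : ℂ[X]} (H : ∀ c, N.eval c = 0 → Even (rootMultiplicity c N)) :
    Even N.natDegree := by
  have h1 : N.roots.card = N.natDegree := (IsAlgClosed.splits N).natDegree_eq_card_roots.symm
  rw [← h1, ← Multiset.toFinset_sum_count_eq]
  refine Finset.even_sum _ fun c hc => ?_
  rw [count_roots]
  exact H c (isRoot_of_mem_roots (Multiset.mem_toFinset.1 hc))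

lemma deg_even_of {h : RatFunc ℂ} (hd : 1 ≤ deg h) (y : Option ℂ)
    (H : ∀ x e, At h x y e → Even e) : Even (deg h) := by
  have hB0 := RatFunc.denom_ne_zero h
  have hcop := RatFunc.isCoprime_num_denom h
  cases y with
  | some b =>
    have hN0 := num_sub_ne hd b
    set N := h.num - C b * h.denom with hN
    have hev : Even N.natDegree := by
      apply even_natDegree
      intro c hc
      have hpos := (rootMultiplicity_pos hN0).2 hc
      have hB : h.denom.eval c ≠ 0 := by
        intro hB
        have hA := cop_eval hcop.symm c hB
        rw [hN, eval_sub, eval_mul, hB, mul_zero, sub_zero] at hc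
        exact hA hc
      have h4 : rootMultiplicity c h.denom = 0 := rootMultiplicity_eq_zero hB
      refine H (some c) _ (At_of_pos hd (e := rootMultiplicity c N) (by omega) ?_)
      rw [(ord_sub_C hd (some c) b).2]
      simp only [po]
      rw [h4, ← hN]
      simp
    have hnum : h.num = N + C b * h.denom := by rw [hN]; ring
    have h1 : h.num.natDegree ≤ max N.natDegree h.denom.natDegree := by
      rw [hnum]
      exact (natDegree_add_le _ _).trans (max_le_max le_rfl (natDegree_C_mul_le _ _))
    have h2 : N.natDegree ≤ max h.num.natDegree h.denom.natDegree :=
      (natDegree_sub_le _ _).trans (max_le_max le_rfl (natDegree_C_mul_le _ _))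
    by_cases hlt : N.natDegree < h.denom.natDegree
    · have h3 : Even (h.denom.natDegree - N.natDegree) := by
        refine H none _ (At_of_pos hd (by omega) ?_)
        rw [(ord_sub_C hd none b).2]
        simp only [po]
        rw [← hN, Nat.cast_sub hlt.le]
        ring
      have h5 : deg h = (h.denom.natDegree - N.natDegree) + N.natDegree := by
        unfold deg; omega
      rw [h5]
      exact h3.add hev
    · have h5 : deg h = N.natDegree := by
        unfold deg; omega
      rw [h5]
      exact hev
  | none =>
    have hev : Even h.denom.natDegree := by
      apply even_natDegree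
      intro c hc
      have hpos := (rootMultiplicity_pos hB0).2 hc
      have hA := cop_eval hcop.symm c hc
      have h4 : rootMultiplicity c h.num = 0 := rootMultiplicity_eq_zero hA
      refine H (some c) _ (At_of_neg hd (b := 0) (e := rootMultiplicity c h.denom) (by omega) ?_)
      rw [(ord_sub_C hd (some c) 0).2, C_0, zero_mul, sub_zero]
      simp only [po]
      rw [h4]
      simp
    by_cases hlt : h.denom.natDegree < h.num.natDegree
    · have h3 : Even (h.num.natDegree - h.denom.natDegree) := by
        refine H none _ (At_of_neg hd (b := 0) (by omega) ?_)
        rw [(ord_sub_C hd none 0).2, C_0, zero_mul, sub_zero]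
        simp only [po]
        rw [Nat.cast_sub hlt.le]
        ring
      have h5 : deg h = (h.num.natDegree - h.denom.natDegree) + h.denom.natDegree := by
        unfold deg; omega
      rw [h5]
      exact h3.add hev
    · have h5 : deg h = h.denom.natDegree := by
        unfold deg; omega
      rw [h5]
      exact hev

end Pool.Agent.H40.MS
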